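import Mathlib
import Pool.Agent.Lib.helper23.PW
import Pool.Agent.Lib.helper23.AbQ
import Pool.Agent.H.MP_3bc7a7_gt.A

set_option autoImplicit false

namespace Pool.Agent.Results.MP_14431a_gt.Kurepa

open Set Filter Topology TopologicalSpace Function Order Pool.Agent.Lib.helper23
open Cardinal hiding univ
open Dual PW AbQ Pool.Agent.H.MP_3bc7a7_gt.A

noncomputable def wt (X : Type) [TopologicalSpace X] : Cardinal :=
  sInf {c | ∃ B : Set (Set X), IsTopologicalBasis B ∧ #B = c}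

def OB (G : Type) [TopologicalSpace G] : Prop := ∀ A : Set G, A.Countable → IsCompact (closure A)

def PWS (G : Type) [AddCommGroup G] [TopologicalSpace G] : Prop :=
  ∀ (H : Type) [AddCommGroup H] [TopologicalSpace H] [IsTopologicalAddGroup H] [T2Space H]
    (f : G →+ H), Continuous f → Surjective f → wt H ≤ #H

def S : Set Cardinal := {κ | ∃ (G : Type) (_ : AddCommGroup G) (_ : TopologicalSpace G),
  IsTopologicalAddGroup G ∧ T2Space G ∧ OB G ∧ wt G = κ ∧ ¬ PWS G}

def KH : Prop := ∃ X : Type, #X = ℵ₁ ∧ ∃ 𝓕 : Set (Set X), ℵ_ 2 ≤ #𝓕 ∧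
  ∀ A : Set X, A.Countable → ((· ∩ A) '' 𝓕).Countable

lemma wt_ex (X : Type) [TopologicalSpace X] : ∃ B : Set (Set X), IsTopologicalBasis B ∧ #B = wt X :=
  csInf_mem (s := {c | ∃ B : Set (Set X), IsTopologicalBasis B ∧ #B = c})
    ⟨_, _, isTopologicalBasis_opens, rfl⟩

lemma wt_le' {X : Type} [TopologicalSpace X] {B : Set (Set X)} (h : IsTopologicalBasis B) :
    wt X ≤ #B := csInf_le' (s := {c | ∃ B : Set (Set X), IsTopologicalBasis B ∧ #B = c}) ⟨_, h, rfl⟩

lemma wt_le {X I : Type} [t : TopologicalSpace X] (φ : I → X → T)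
    (h : IsInducing fun a i => φ i a) : wt X ≤ max ℵ₀ #I := by
  let s : Set (Set X) := ⋃ i, (φ i ⁻¹' ·) '' countableBasis T
  have e : t = generateFrom s := by
    rw [h.eq_induced, Pi.topologicalSpace, induced_iInf, generateFrom_iUnion]
    refine iInf_congr fun i => ?_
    rw [induced_compose]
    exact (congrArg (induced (φ i)) (isBasis_countableBasis T).eq_generateFrom).trans
      induced_generateFrom_eq
  have hs : #s ≤ max ℵ₀ #I := un_le (le_max_left _ _) (le_max_right _ _) _ fun i =>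
    mk_image_le.trans ((countable_countableBasis T).le_aleph0.trans (le_max_left _ _))
  refine (wt_le' (isTopologicalBasis_of_subbasis e)).trans (mk_image_le.trans ?_)
  refine le_trans ?_ ((mk_list_le_max s).trans (max_le (le_max_left _ _) hs))
  refine le_trans (mk_le_mk_of_subset ?_) (mk_range_le (f := fun l : List s =>
    Subtype.val '' {x | x ∈ l}))
  rintro f ⟨h1, h2⟩
  refine ⟨(h1.preimage Subtype.val_injective.injOn).toFinset.toList, ?_⟩
  simp only [List.mem_toFinset, Finset.mem_toList, Finite.mem_toFinset]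
  exact image_preimage_eq_of_subset (Subtype.range_coe.symm ▸ h2)

abbrev D (A : Type) [AddCommGroup A] [TopologicalSpace A] := {χ : A →+ T // Continuous χ}

section
variable {A : Type} [AddCommGroup A] [TopologicalSpace A]

lemma cnt {I : Type} (φ : I → A →+ T) (h : comap (fun a i => φ i a) (𝓝 0) ≤ 𝓝 0) :
    #(D A) ≤ max ℵ₀ #I := by
  have (χ : D A) : ∃ k : I →₀ ℤ, ∀ a, χ.1 a = lc (fun i => φ i a) k := by
    obtain ⟨U, h1, h2⟩ := mem_comap.1 (h ((χ.2.norm.tendsto 0).eventually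
      (ge_mem_nhds (show ‖χ.1 0‖ < 1 / 4 by simp))))
    exact CR φ χ.1 h1 fun a ha => h2 ha
  choose k hk using this
  exact (mk_le_of_injective (f := k) fun a b e => Subtype.ext (AddMonoidHom.ext fun x => by
    rw [hk, hk, e])).trans (fs_le (le_max_left _ _) (le_max_right _ _))

variable [IsTopologicalAddGroup A] [T2Space A]

lemma indK [CompactSpace A] {I : Type} (φ : I → D A) (h : ∀ x, (∀ i, (φ i).1 x = 0) → x = 0) :
    IsInducing fun a i => (φ i).1 a :=
  ((continuous_pi fun i => (φ i).2).isClosedEmbedding fun a b e => sub_eq_zero.1 (h _ fun i => by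
    rw [map_sub, congrFun e i, sub_self])).isInducing

omit [T2Space A] in
lemma pre (h : OB A) : Pre A := fun U hU => by
  by_contra hn
  push Not at hn
  obtain ⟨f, -, hf⟩ := exists_seq_of_forall_finset_exists (fun _ : A => True)
    (fun x y => y - x ∉ U) fun s _ => (hn s s.finite_toSet).imp fun y hy => ⟨trivial, hy⟩
  obtain ⟨z, -, hz⟩ := (h _ (countable_range f)).exists_mapClusterPt (f := atTop) (u := f)
    (le_principal_iff.2 (mem_map.2 (univ_mem' fun n => subset_closure ⟨n, rfl⟩)))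
  have := continuous_sub.tendsto' (z, z) 0 (sub_self z) hU
  rw [nhds_prod_eq, mem_map, mem_prod_self_iff] at this
  obtain ⟨W, h1, h2⟩ := this
  have h3 := mapClusterPt_iff_frequently.1 hz W h1
  obtain ⟨m, hm⟩ := h3.exists
  obtain ⟨n, h4, h5⟩ := (h3.and_eventually (eventually_gt_atTop m)).exists
  exact hf m n h5 (h2 (mk_mem_prod h4 hm))

lemma ind (h : Pre A) : IsInducing fun a (χ : D A) => χ.1 a := by
  letI := IsTopologicalAddGroup.rightUniformSpace A
  haveI : IsUniformAddGroup A := isUniformAddGroup_of_addCommGroup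
  have h1 : TotallyBounded (univ : Set A) := fun d hd => by
    obtain ⟨U, hU, hd⟩ := mem_comap.1 (uniformity_eq_comap_nhds_zero_swapped A ▸ hd)
    obtain ⟨F, h1, h2⟩ := h U hU
    exact ⟨F, h1, fun x _ => by
      obtain ⟨f, hf, h3⟩ := h2 x
      exact mem_biUnion hf (hd h3)⟩
  haveI : CompactSpace (UniformSpace.Completion A) := ⟨isCompact_iff_totallyBounded_isComplete.2
    ⟨by simpa [UniformSpace.Completion.denseRange_coe.closure_range] using
      (h1.image (UniformSpace.Completion.uniformContinuous_coe A)).closure, complete_univ⟩⟩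
  have := (indK (A := UniformSpace.Completion A) id fun x hx => not_not.1 fun e => by
    obtain ⟨χ, c, k⟩ := cpt e
    exact k (hx ⟨χ, c⟩)).comp (UniformSpace.Completion.isUniformInducing_coe A).isInducing
  exact .of_comp (continuous_pi fun χ => χ.2) (g := fun y (ψ : D (UniformSpace.Completion A)) =>
    y ⟨ψ.1.comp UniformSpace.Completion.toCompl, ψ.2.comp (UniformSpace.Completion.continuous_coe A)⟩)
    (by fun_prop) this

lemma D_le (h : Pre A) : #(D A) ≤ max ℵ₀ (wt A) := by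
  obtain ⟨B, hB, e⟩ := wt_ex A
  have (U : B) : ∃ F : Set (D A), F.Finite ∧ ((0 : A) ∈ U.1 → ∃ t : D A → Set T,
      (∀ i, t i ∈ 𝓝 0) ∧ ∀ a, (∀ i ∈ F, i.1 a ∈ t i) → a ∈ U.1) := by
    by_cases h0 : (0 : A) ∈ U.1
    · have := (hB.isOpen U.2).mem_nhds h0
      rw [(ind h).nhds_eq_comap, mem_comap] at this
      obtain ⟨W, h1, h2⟩ := this
      rw [nhds_pi, Filter.mem_pi] at h1
      obtain ⟨F, hF, t, ht, h3⟩ := h1
      exact ⟨F, hF, fun _ => ⟨t, fun i => by simpa using ht i, fun a ha => h2 (h3 ha)⟩⟩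
    · exact ⟨∅, finite_empty, fun k => absurd k h0⟩
  choose F hF h2 using this
  refine (cnt (fun i : ⋃ U, F U => i.1.1) fun s hs => ?_).trans (max_le (le_max_left _ _)
    (un_le (le_max_left _ _) (e.le.trans (le_max_right _ _)) _ fun U =>
      (hF U).countable.le_aleph0.trans (le_max_left _ _)))
  obtain ⟨U, u1, u2, u3⟩ := hB.mem_nhds_iff.1 hs
  obtain ⟨t, t1, t2⟩ := h2 ⟨U, u1⟩ u2
  refine mem_comap.2 ⟨_, set_pi_mem_nhds ((hF ⟨U, u1⟩).preimage Subtype.val_injective.injOn)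
    fun i _ => t1 i.1, fun a ha => u3 (t2 a fun i hi => ha ⟨i, mem_iUnion.2 ⟨_, hi⟩⟩ hi)⟩

lemma small [CompactSpace A] (h : #A ≤ ℵ₁) : Countable (D A) := by
  by_contra hn
  obtain ⟨k, hk⟩ : ∃ k : J → A, Surjective k := by
    obtain ⟨f⟩ := (Cardinal.le_def A J).1 (by simpa using h)
    exact ⟨_, invFun_surjective f.injective⟩
  have step (a : J) (q : Iio a → D A × T) : ∃ r : D A × T, (∃ y, ∀ b, (q b).1.1 y = (q b).2) →
      (∃ y, (∀ b, (q b).1.1 y = (q b).2) ∧ r.1.1 y = r.2) ∧ r.1.1 (k a) ≠ r.2 := by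
    by_cases hy : ∃ y, ∀ b, (q b).1.1 y = (q b).2
    swap
    · exact ⟨(⟨0, continuous_const⟩, 0), fun e => absurd e hy⟩
    obtain ⟨y, hy⟩ := hy
    obtain ⟨x, x1, x2⟩ : ∃ x, (∀ b, (q b).1.1 x = 0) ∧ x ≠ 0 := by
      by_contra! e
      have hc : #(Iio a) ≤ ℵ₀ := ((cI a).mono Iio_subset_Iic_self).le_aleph0
      refine hn (mk_le_aleph0_iff.1 ((cnt (fun b => (q b).1.1) ?_).trans (max_le le_rfl hc)))
      rw [(indK (fun b => (q b).1) e).nhds_eq_comap]
      simp only [map_zero]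
      rfl
    obtain ⟨χ, c, e⟩ := cpt x2
    by_cases e2 : χ (k a) = χ y
    · exact ⟨(⟨χ, c⟩, χ (y + x)), fun _ => ⟨⟨y + x, fun b => by rw [map_add, hy, x1, add_zero], rfl⟩,
        by simpa [e2] using e⟩⟩
    · exact ⟨(⟨χ, c⟩, χ y), fun _ => ⟨⟨y, hy, rfl⟩, e2⟩⟩
  choose st hst using step
  let p : J → D A × T := WellFounded.fix wellFounded_lt fun a ih => st a fun b => ih b.1 b.2
  have hp (a : J) : p a = st a fun b => p b.1 := WellFounded.fix_eq _ _ _
  have cmp (s : Set J) (h : ∀ b ∈ s, ∃ y, ∀ c ≤ b, (p c).1.1 y = (p c).2) :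
      ∃ y, ∀ b ∈ s, (p b).1.1 y = (p b).2 := by
    rcases s.eq_empty_or_nonempty with rfl | hs
    · exact ⟨0, fun _ => False.elim⟩
    have := hs.to_subtype
    have cl (b : s) : IsClosed {y | ∀ c ≤ b.1, (p c).1.1 y = (p c).2} := by
      simp only [setOf_forall]
      exact isClosed_iInter fun c => isClosed_iInter fun _ => isClosed_eq (p c).1.2 continuous_const
    obtain ⟨y, hy⟩ := IsCompact.nonempty_iInter_of_directed_nonempty_isCompact_isClosed
      (fun b : s => {y | ∀ c ≤ b.1, (p c).1.1 y = (p c).2}) (fun a b => (le_total a b).elim (fun e => ⟨b, fun y hy c hc => hy c (hc.trans e), Subset.rfl⟩)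
        fun e => ⟨a, Subset.rfl, fun y hy c hc => hy c (hc.trans e)⟩)
      (fun b => h b b.2) (fun b => (cl b).isCompact) cl
    exact ⟨y, fun b hb => mem_iInter.1 hy ⟨b, hb⟩ b le_rfl⟩
  have all (a : J) : (∃ y, ∀ c ≤ a, (p c).1.1 y = (p c).2) ∧ (p a).1.1 (k a) ≠ (p a).2 := by
    induction a using WellFoundedLT.induction with | _ a ih
    obtain ⟨y, hy⟩ := cmp (Iio a) fun b hb => (ih b hb).1
    obtain ⟨⟨z, z1, z2⟩, h2⟩ := hst a (fun b => p b.1) ⟨y, fun b => hy b b.2⟩
    rw [← hp] at z2 h2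
    exact ⟨⟨z, fun c hc => hc.eq_or_lt.elim (fun e => e ▸ z2) fun e => z1 ⟨c, e⟩⟩, h2⟩
  obtain ⟨y, hy⟩ := cmp univ fun b _ => (all b).1
  obtain ⟨a, rfl⟩ := hk y
  exact (all a).2 (hy a trivial)

lemma inf_le (h : OB A) (hw : #A < wt A) : ℵ₁ ≤ #A := by
  by_contra hn
  have : Countable A := mk_le_aleph0_iff.1 (lt_succ_iff.1 (succ_aleph0 ▸ not_le.1 hn))
  have : CompactSpace A := ⟨by simpa using h univ countable_univ⟩
  obtain ⟨a, x, hx⟩ := nonempty_interior_of_iUnion_of_closed (f := fun a : A => {a})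
    (fun _ => isClosed_singleton) (iUnion_of_singleton A)
  have : DiscreteTopology A := discreteTopology_of_isOpen_singleton_zero (by
    have e : interior {a} = {a} := interior_subset.antisymm (by
      rintro _ rfl; exact mem_singleton_iff.1 (interior_subset hx) ▸ hx)
    simpa using (e ▸ isOpen_interior : IsOpen {a}).preimage (continuous_add_right a))
  refine hw.not_ge ((wt_le' (isTopologicalBasis_singletons A)).trans ?_)
  exact (mk_range_le (f := fun a : A => ({a} : Set A))).trans_eq' (congrArg _ (by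
    congr 1; ext; simp [eq_comm]))

end

lemma chain {G H : Type} [AddCommGroup G] [TopologicalSpace G] [IsTopologicalAddGroup G] [T2Space G]
    [AddCommGroup H] [TopologicalSpace H] [IsTopologicalAddGroup H] [T2Space H] (h : OB G)
    (f : G →+ H) (hf : Continuous f) (hs : Surjective f) :
    OB H ∧ wt H ≤ max ℵ₀ #(D H) ∧ #(D H) ≤ max ℵ₀ (wt G) := by
  have h1 : OB H := fun A hA => by
    obtain ⟨g, hg⟩ := hs.hasRightInverse
    refine ((h _ (hA.image g)).image hf).closure_of_subset fun a ha =>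
      ⟨g a, subset_closure ⟨a, ha, rfl⟩, hg a⟩
  refine ⟨h1, wt_le _ (ind (pre h1)), le_trans ?_ (D_le (pre h))⟩
  refine mk_le_of_injective (f := fun χ => ⟨χ.1.comp f, χ.2.comp hf⟩) fun a b e => ?_
  exact Subtype.ext ((AddMonoidHom.cancel_right hs).1 (congrArg Subtype.val e))

lemma low (hc : continuum.{0} = ℵ₁) {κ : Cardinal} (h : κ ∈ S) : succ 𝔠 ≤ κ := by
  obtain ⟨G, _, _, _, _, h1, rfl, h2⟩ := h
  simp only [PWS, not_forall, not_le] at h2
  obtain ⟨H, _, _, _, _, f, hf, hs, hw⟩ := h2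
  obtain ⟨k1, k2, k3⟩ := chain h1 f hf hs
  have := ((inf_le k1 hw).trans_lt hw).trans_le (k2.trans (max_le (le_max_left _ _) k3))
  rw [hc, succ_le_iff]
  exact (lt_max_iff.1 this).resolve_left aleph0_lt_aleph_one.not_gt

lemma a2 : aleph.{0} 2 = succ ℵ₁ := by rw [← one_add_one_eq_two, succ_aleph]

lemma toKH (hc : continuum.{0} = ℵ₁) (h : succ 𝔠 ∈ S) : KH := by
  obtain ⟨G, _, _, _, _, h1, e, h2⟩ := h
  simp only [PWS, not_forall, not_le] at h2
  obtain ⟨H, _, _, _, _, f, hf, hs, hw⟩ := h2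
  obtain ⟨k1, k2, k3⟩ := chain h1 f hf hs
  have k4 := inf_le k1 hw
  have k5 : #H ≤ ℵ₁ := by
    rw [e, max_eq_right (aleph0_le_continuum.trans (le_succ _)), hc] at k3
    exact lt_succ_iff.1 (hw.trans_le (k2.trans (max_le (aleph0_lt_aleph_one.le.trans (le_succ _)) k3)))
  have hT : #T ≤ ℵ₁ := (mk_le_of_surjective QuotientAddGroup.mk_surjective).trans (mk_real.trans hc).le
  let gr (χ : D H) : Set (H × T) := {p | χ.1 p.1 = p.2}
  refine ⟨H × T, le_antisymm ?_ (k4.trans (mk_le_of_injective (Prod.mk_left_injective 0))),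
    range gr, ?_, fun A hA => ?_⟩
  · rw [mk_prod, lift_id, lift_id]
    exact (mul_le_mul' k5 hT).trans (mul_eq_self aleph0_lt_aleph_one.le).le
  · rw [mk_range_eq _ fun a b e => Subtype.ext (AddMonoidHom.ext fun x =>
      ((Set.ext_iff.1 e (x, a.1 x)).1 rfl).symm), a2, succ_le_iff]
    exact (lt_max_iff.1 ((k4.trans_lt hw).trans_le k2)).resolve_left aleph0_lt_aleph_one.not_gt
  · let K := (Submodule.span ℤ (Prod.fst '' A)).toAddSubgroup.topologicalClosure
    have : CompactSpace K := isCompact_iff_compactSpace.1 (k1 _ (le_aleph0_iff_set_countable.1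
      (span_le le_rfl (hA.image _).le_aleph0)))
    have := small (A := K) ((mk_subtype_le _).trans k5)
    refine (countable_range fun ψ : D K => {p ∈ A | ∃ h : p.1 ∈ K, ψ.1 ⟨p.1, h⟩ = p.2}).mono ?_
    rintro _ ⟨_, ⟨χ, rfl⟩, rfl⟩
    refine ⟨⟨χ.1.comp K.subtype, χ.2.comp continuous_subtype_val⟩, Set.ext fun p => ?_⟩
    exact ⟨fun ⟨a, _, b⟩ => ⟨b, a⟩, fun ⟨a, b⟩ =>
      ⟨b, subset_closure (Submodule.subset_span ⟨p, b, rfl⟩), a⟩⟩

lemma build {X : Type} (𝓕 : Set (Set X)) {μ : Cardinal} (h0 : ℵ₀ ≤ μ) (h1 : #X ^ ℵ₀ ≤ μ)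
    [Infinite X] (h2 : ∀ A : Set X, A.Countable → 𝔠 ^ #((· ∩ A) '' 𝓕) ≤ μ) (h3 : μ < #𝓕) :
    #𝓕 ∈ S := by
  classical
  let P (A : Set X) : Set (𝓕 → T) := {g | ∀ E F : 𝓕, E.1 ∩ A = F.1 ∩ A → g E = g F}
  have mono {A B : Set X} (h : A ⊆ B) : P A ⊆ P B := fun g hg E F e => hg E F (by
    rw [← inter_eq_right.2 h, ← inter_assoc, ← inter_assoc, e])
  let G : AddSubgroup (𝓕 → T) :=
    { carrier := ⋃ A : {A : Set X // #A ≤ ℵ₀}, P A
      zero_mem' := mem_iUnion.2 ⟨⟨∅, by simp⟩, fun _ _ _ => rfl⟩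
      add_mem' := by
        rintro a b ⟨_, ⟨A, rfl⟩, ha⟩ ⟨_, ⟨B, rfl⟩, hb⟩
        refine mem_iUnion.2 ⟨⟨A.1 ∪ B.1, le_aleph0_iff_set_countable.2
          ((le_aleph0_iff_set_countable.1 A.2).union (le_aleph0_iff_set_countable.1 B.2))⟩,
          fun E F e => ?_⟩
        rw [Pi.add_apply, Pi.add_apply, mono subset_union_left ha E F e,
          mono subset_union_right hb E F e]
      neg_mem' := by
        rintro a ⟨_, ⟨A, rfl⟩, ha⟩
        exact mem_iUnion.2 ⟨A, fun E F e => congrArg Neg.neg (ha E F e)⟩ }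
  have hO : OB G := fun C hC => by
    have := hC.to_subtype
    choose A hA using fun c : C => mem_iUnion.1 c.1.2
    have cl : IsClosed (P (⋃ c, (A c).1)) := by
      simp only [P, setOf_forall]
      exact isClosed_iInter fun E => isClosed_iInter fun F => isClosed_iInter fun _ =>
        isClosed_eq (continuous_apply _) (continuous_apply _)
    refine (IsInducing.subtypeVal.isCompact_preimage' cl.isCompact ?_).closure_of_subset
      fun c hc => mono (subset_iUnion (fun c => (A c).1) ⟨c, hc⟩) (hA ⟨c, hc⟩)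
    rw [Subtype.range_coe]
    exact subset_iUnion (fun A : {A : Set X // #A ≤ ℵ₀} => P A) ⟨_, le_aleph0_iff_set_countable.2
      (countable_iUnion fun c => le_aleph0_iff_set_countable.1 (A c).2)⟩
  have hG : #G ≤ μ := un_le h0 ((mk_bounded_set_le_of_infinite X ℵ₀).trans h1) _ fun A => by
    refine le_trans (mk_le_mk_of_subset ?_) ((mk_range_le (f := fun (g : (· ∩ A.1) '' 𝓕 → T)
      (F : 𝓕) => g ⟨_, F.1, F.2, rfl⟩)).trans (le_trans ?_
        (h2 A (le_aleph0_iff_set_countable.1 A.2))))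
    · exact fun g hg => ⟨fun t => g ⟨t.2.choose, t.2.choose_spec.1⟩, funext fun F =>
        hg _ _ (Exists.choose_spec (p := fun E => E ∈ 𝓕 ∧ E ∩ A.1 = F.1 ∩ A.1) _).2⟩
    · rw [← power_def]
      exact power_le_power_right ((mk_le_of_surjective QuotientAddGroup.mk_surjective).trans mk_real.le)
  have hw : wt G = #𝓕 := by
    refine le_antisymm ((wt_le (fun (F : 𝓕) (g : G) => g.1 F) IsInducing.subtypeVal).trans
      (max_le (h0.trans h3.le) le_rfl)) ?_
    refine (le_max_iff.1 (le_trans ?_ (D_le (pre hO)))).resolve_left (h0.trans_lt h3).not_ge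
    refine mk_le_of_injective (f := fun F => ⟨(Pi.evalAddMonoidHom (fun _ => T) F).comp G.subtype,
      (continuous_apply F).comp continuous_subtype_val⟩) fun E F e => Subtype.ext (Set.ext fun x => ?_)
    obtain ⟨t, ht⟩ : ∃ t : T, t ≠ 0 := ⟨((1 / 2 : ℝ) : T), fun h => by
      obtain ⟨n, hn⟩ := (AddCircle.coe_eq_zero_iff _).1 h
      have : (2 * n : ℤ) = (1 : ℝ) := by simp at hn; simp [hn]
      have : 2 * n = 1 := by exact_mod_cast this
      omega⟩
    have := DFunLike.congr_fun (congrArg Subtype.val e) ⟨fun U => if x ∈ U.1 then t else 0,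
      mem_iUnion.2 ⟨⟨{x}, by simp⟩, fun U V k => by
        simp only [show x ∈ U.1 ↔ x ∈ V.1 by simpa using Set.ext_iff.1 k x]⟩⟩
    have k : (if x ∈ E.1 then t else 0) = if x ∈ F.1 then t else 0 := this
    exact ⟨fun a => not_not.1 fun b => ht (by rwa [if_pos a, if_neg b] at k),
      fun b => not_not.1 fun a => ht (by rw [if_pos b, if_neg a] at k; exact k.symm)⟩
  exact ⟨G, inferInstance, inferInstance, inferInstance, inferInstance, hO, hw, fun h =>
    ((h G (AddMonoidHom.id G) continuous_id surjective_id).trans hG).not_gt (hw ▸ h3)⟩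

theorem result : succ (2 ^ 𝔠) ∈ S ∧ (continuum.{0} = ℵ₁ → (IsLeast S (succ 𝔠) ↔ KH)) ∧
    (continuum.{0} = ℵ₁ → 2 ^ continuum.{0} = succ 𝔠 → ¬ KH → IsLeast S (succ (succ 𝔠))) := by
  have h1 : succ (2 ^ 𝔠) ∈ S := by
    obtain ⟨𝓕, -, e⟩ := (le_mk_iff_exists_subset (c := succ (2 ^ 𝔠))
      (s := (univ : Set (Set (Set ℝ))))).1 (by simpa [mk_real] using succ_le_of_lt (cantor _))
    refine e ▸ build 𝓕 (aleph0_le_continuum.trans (cantor _).le) ?_ (fun A hA => ?_)
      (e ▸ lt_succ _)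
    · rw [mk_set, mk_real, ← power_mul, continuum_mul_aleph0]
    · refine le_trans (power_le_power_left continuum_ne_zero (c := 𝔠) ?_)
        (power_self_eq aleph0_le_continuum).le
      refine (mk_le_mk_of_subset (t := 𝒫 A) ?_).trans ?_
      · rintro _ ⟨E, -, rfl⟩
        exact inter_subset_right
      · rw [mk_powerset, ← two_power_aleph0]
        exact power_le_power_left two_ne_zero hA.le_aleph0
  refine ⟨h1, fun hc => ⟨fun h => toKH hc h.1, fun ⟨X, hX, 𝓕, h2, h3⟩ => ⟨?_, fun _ => low hc⟩⟩,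
    fun hc e hk => ⟨e ▸ h1, fun κ h => succ_le_of_lt ((low hc h).lt_of_ne ?_)⟩⟩
  · obtain ⟨𝓖, g1, e⟩ := (le_mk_iff_exists_subset (c := succ 𝔠)).1 (hc ▸ a2 ▸ h2)
    have : Infinite X := infinite_iff.2 (hX ▸ aleph0_lt_aleph_one.le)
    refine e ▸ build 𝓖 aleph0_le_continuum (by simp [hX, ← hc]) (fun A hA => ?_) (e ▸ lt_succ _)
    exact (power_le_power_left continuum_ne_zero
      ((h3 A hA).mono (image_mono g1)).le_aleph0).trans continuum_power_aleph0.le
  · rintro rfl
    exact hk (toKH hc h)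

end Pool.Agent.Results.MP_14431a_gt.Kurepa
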